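import Pool.Agent.R605.CIP.Defs

/-!
# The algebras `D L`

For a bounded lattice `L` the algebra `D L` consists of `zero`, `one`, an idempotent coatom `cc`
and two copies `fib false L`, `fib true L` of `L`. Products of elements of the same copy are equal
to the least element of this copy, elements of different copies are orthogonal.
-/

set_option autoImplicit false
set_option linter.unusedSectionVars false

namespace Pool.Agent.R605.CIP

/-! ### Side by side chains -/

/-- `k` copies of the chain of the rationals side by side, between `bot` and `top`. -/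
inductive HS (k : ℕ) : Type
  | bot
  | top
  | mid (j : Fin k) (x : ℚ)

namespace HS

variable {k : ℕ}

/-- order -/
def le : HS k → HS k → Prop
  | bot, _ => True
  | top, top => True
  | top, _ => False
  | mid _ _, bot => False
  | mid _ _, top => True
  | mid i x, mid j y => i = j ∧ x ≤ y

/-- join -/
def sup : HS k → HS k → HS k
  | bot, b => b
  | top, _ => top
  | mid i x, bot => mid i x
  | mid _ _, top => top
  | mid i x, mid j y => if i = j then mid i (max x y) else top

/-- meet -/
def inf : HS k → HS k → HS k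
  | bot, _ => bot
  | top, b => b
  | mid _ _, bot => bot
  | mid i x, top => mid i x
  | mid i x, mid j y => if i = j then mid i (min x y) else bot

instance : Lattice (HS k) where
  le := le
  le_refl a := by cases a <;> simp [le]
  le_trans a b c := by
    cases a <;> cases b <;> cases c <;> simp +contextual [le]
    intro h1 h2 h3 h4
    exact h2.trans h4
  le_antisymm a b := by
    cases a <;> cases b <;> simp +contextual [le]
    intro h1 h2 h3
    exact le_antisymm h2 h3
  sup := sup
  inf := inf
  le_sup_left a b := by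
    cases a <;> cases b <;> simp [le, sup]
    split_ifs with h <;> simp [h]
  le_sup_right a b := by
    cases a <;> cases b <;> simp [le, sup]
    split_ifs with h <;> simp [h]
  sup_le a b c := by
    rcases a with _ | _ | ⟨i, x⟩ <;> rcases b with _ | _ | ⟨j, y⟩ <;>
      rcases c with _ | _ | ⟨l, z⟩ <;> simp only [le, sup] <;> try tauto
    · split_ifs <;> simp
    · rintro ⟨rfl, h1⟩ ⟨rfl, h2⟩
      simp [h1, h2]
  inf_le_left a b := by
    cases a <;> cases b <;> simp [le, inf]
    split_ifs with h <;> simp [h]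
  inf_le_right a b := by
    cases a <;> cases b <;> simp [le, inf]
    split_ifs with h <;> simp [h]
  le_inf a b c := by
    rcases a with _ | _ | ⟨i, x⟩ <;> rcases b with _ | _ | ⟨j, y⟩ <;>
      rcases c with _ | _ | ⟨l, z⟩ <;> simp only [le, inf] <;> try tauto
    · rintro ⟨rfl, h1⟩ ⟨rfl, h2⟩
      simp [h1, h2]

instance : BoundedOrder (HS k) where
  top := top
  le_top a := by
    change le a top
    cases a <;> simp [le]
  bot := bot
  bot_le a := by
    change le bot a
    simp [le]

theorem bot_eq : (⊥ : HS k) = bot := rfl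
theorem top_eq : (⊤ : HS k) = top := rfl

theorem le_def (a b : HS k) : a ≤ b ↔ le a b := Iff.rfl
theorem sup_def (a b : HS k) : a ⊔ b = sup a b := rfl
theorem inf_def (a b : HS k) : a ⊓ b = inf a b := rfl

@[simp] theorem mid_le_mid (i j : Fin k) (x y : ℚ) : mid i x ≤ mid j y ↔ i = j ∧ x ≤ y := Iff.rfl
@[simp] theorem not_top_le_mid (j : Fin k) (x : ℚ) : ¬ (top ≤ mid j x) := id
@[simp] theorem not_mid_le_bot (j : Fin k) (x : ℚ) : ¬ (mid j x ≤ bot) := id
@[simp] theorem not_top_le_bot : ¬ ((top : HS k) ≤ bot) := id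
@[simp] theorem bot_le' (a : HS k) : bot ≤ a := bot_le
@[simp] theorem le_top' (a : HS k) : a ≤ top := le_top

end HS

/-! ### The algebras `D L` -/

/-- The carrier of the algebra `D L`. -/
inductive D (L : Type) : Type
  | zero
  | one
  | cc
  | fib (s : Bool) (x : L)

namespace D

variable {L : Type} [Lattice L] [BoundedOrder L]

/-- order -/
def le : D L → D L → Prop
  | zero, _ => True
  | one, one => True
  | one, _ => False
  | cc, one => True
  | cc, cc => True
  | cc, _ => False
  | fib _ _, one => True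
  | fib _ _, cc => True
  | fib _ _, zero => False
  | fib s x, fib t y => s = t ∧ x ≤ y

/-- join -/
def sup : D L → D L → D L
  | zero, b => b
  | one, _ => one
  | cc, one => one
  | cc, _ => cc
  | fib _ _, one => one
  | fib _ _, cc => cc
  | fib s x, zero => fib s x
  | fib s x, fib t y => if s = t then fib s (x ⊔ y) else cc

/-- meet -/
def inf : D L → D L → D L
  | zero, _ => zero
  | one, b => b
  | cc, one => cc
  | cc, b => b
  | fib s x, one => fib s x
  | fib s x, cc => fib s x
  | fib _ _, zero => zero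
  | fib s x, fib t y => if s = t then fib s (x ⊓ y) else zero

/-- product -/
def mul : D L → D L → D L
  | zero, _ => zero
  | one, b => b
  | cc, one => cc
  | cc, cc => cc
  | cc, zero => zero
  | cc, fib s _ => fib s ⊥
  | fib s x, one => fib s x
  | fib s _, cc => fib s ⊥
  | fib _ _, zero => zero
  | fib s _, fib t _ => if s = t then fib s ⊥ else zero

open Classical in
/-- residuum -/
noncomputable def imp : D L → D L → D L
  | zero, _ => one
  | one, b => b
  | cc, one => one
  | cc, cc => one
  | cc, zero => zero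
  | cc, fib s _ => fib s ⊤
  | fib _ _, one => one
  | fib _ _, cc => one
  | fib s _, zero => fib (!s) ⊤
  | fib s x, fib t y => if s = t then (if x ≤ y then one else cc) else fib t ⊤

instance : Lattice (D L) where
  le := le
  le_refl a := by cases a <;> simp [le]
  le_trans a b c := by
    rcases a with _ | _ | _ | ⟨i, x⟩ <;> rcases b with _ | _ | _ | ⟨j, y⟩ <;>
      rcases c with _ | _ | _ | ⟨l, z⟩ <;> simp only [le] <;> try tauto
    rintro ⟨rfl, h1⟩ ⟨rfl, h2⟩
    exact ⟨rfl, h1.trans h2⟩
  le_antisymm a b := by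
    rcases a with _ | _ | _ | ⟨i, x⟩ <;> rcases b with _ | _ | _ | ⟨j, y⟩ <;>
      simp only [le] <;> try tauto
    rintro ⟨rfl, h1⟩ ⟨_, h2⟩
    rw [le_antisymm h1 h2]
  sup := sup
  inf := inf
  le_sup_left a b := by
    rcases a with _ | _ | _ | ⟨i, x⟩ <;> rcases b with _ | _ | _ | ⟨j, y⟩ <;>
      simp only [le, sup] <;> (try split_ifs) <;> simp_all
  le_sup_right a b := by
    rcases a with _ | _ | _ | ⟨i, x⟩ <;> rcases b with _ | _ | _ | ⟨j, y⟩ <;>
      simp only [le, sup] <;> (try split_ifs) <;> simp_all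
  sup_le a b c := by
    rcases a with _ | _ | _ | ⟨i, x⟩ <;> rcases b with _ | _ | _ | ⟨j, y⟩ <;>
      rcases c with _ | _ | _ | ⟨l, z⟩ <;> simp only [le, sup] <;> try tauto
    · split_ifs <;> simp
    · split_ifs <;> simp
    · rintro ⟨rfl, h1⟩ ⟨rfl, h2⟩
      simp [h1, h2]
  inf_le_left a b := by
    rcases a with _ | _ | _ | ⟨i, x⟩ <;> rcases b with _ | _ | _ | ⟨j, y⟩ <;>
      simp only [le, inf] <;> (try split_ifs) <;> simp_all
  inf_le_right a b := by
    rcases a with _ | _ | _ | ⟨i, x⟩ <;> rcases b with _ | _ | _ | ⟨j, y⟩ <;>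
      simp only [le, inf] <;> (try split_ifs) <;> simp_all
  le_inf a b c := by
    rcases a with _ | _ | _ | ⟨i, x⟩ <;> rcases b with _ | _ | _ | ⟨j, y⟩ <;>
      rcases c with _ | _ | _ | ⟨l, z⟩ <;> simp only [le, inf] <;> try tauto
    rintro ⟨rfl, h1⟩ ⟨rfl, h2⟩
    simp [h1, h2]

instance : BoundedOrder (D L) where
  top := one
  le_top a := by
    change le a one
    cases a <;> simp [le]
  bot := zero
  bot_le a := by
    change le zero a
    simp [le]

instance : CommMonoid (D L) where
  mul := mul
  one := one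
  mul_comm a b := by
    change mul a b = mul b a
    rcases a with _ | _ | _ | ⟨i, x⟩ <;> rcases b with _ | _ | _ | ⟨j, y⟩ <;>
      simp only [mul]
    by_cases h : i = j
    · simp [h]
    · simp [h, Ne.symm h]
  one_mul a := rfl
  mul_one a := by
    change mul a one = a
    cases a <;> rfl
  mul_assoc a b c := by
    change mul (mul a b) c = mul a (mul b c)
    rcases a with _ | _ | _ | ⟨i, x⟩ <;> rcases b with _ | _ | _ | ⟨j, y⟩ <;>
      rcases c with _ | _ | _ | ⟨l, z⟩ <;> simp only [mul] <;>
      (try split_ifs) <;> simp_all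

noncomputable instance : FLA (D L) where
  res := imp
  adj a b c := by
    change le (mul a b) c ↔ le a (imp b c)
    rcases a with _ | _ | _ | ⟨i, x⟩ <;> rcases b with _ | _ | _ | ⟨j, y⟩ <;>
      rcases c with _ | _ | _ | ⟨l, z⟩ <;> simp only [mul, imp, le] <;>
      (try split_ifs) <;> simp_all
    · cases i <;> cases j <;> simp_all
    · cases i <;> cases j <;> cases l <;> simp_all
  one_top := rfl

theorem bot_eq : (⊥ : D L) = zero := rfl
theorem one_eq : (1 : D L) = one := rfl

@[simp] theorem zero_le' (a : D L) : zero ≤ a := bot_le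
@[simp] theorem le_one'' (a : D L) : a ≤ one := le_top
@[simp] theorem not_one_le_zero : ¬ ((one : D L) ≤ zero) := id
@[simp] theorem not_one_le_cc : ¬ ((one : D L) ≤ cc) := id
@[simp] theorem not_one_le_fib (s : Bool) (x : L) : ¬ (one ≤ fib s x) := id
@[simp] theorem not_cc_le_zero : ¬ ((cc : D L) ≤ zero) := id
@[simp] theorem not_cc_le_fib (s : Bool) (x : L) : ¬ (cc ≤ fib s x) := id
@[simp] theorem not_fib_le_zero (s : Bool) (x : L) : ¬ (fib s x ≤ zero) := id
@[simp] theorem fib_le_cc (s : Bool) (x : L) : fib s x ≤ cc := trivial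
@[simp] theorem fib_le_fib (s t : Bool) (x y : L) : fib s x ≤ fib t y ↔ s = t ∧ x ≤ y := Iff.rfl

@[simp] theorem zero_sup (a : D L) : zero ⊔ a = a := rfl
@[simp] theorem sup_zero (a : D L) : a ⊔ zero = a := by cases a <;> rfl
@[simp] theorem one_sup (a : D L) : one ⊔ a = one := rfl
@[simp] theorem sup_one (a : D L) : a ⊔ one = one := by cases a <;> rfl
@[simp] theorem cc_sup_cc : (cc : D L) ⊔ cc = cc := rfl
@[simp] theorem cc_sup_fib (s : Bool) (x : L) : cc ⊔ fib s x = cc := rfl
@[simp] theorem fib_sup_cc (s : Bool) (x : L) : fib s x ⊔ cc = cc := rfl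
@[simp] theorem fib_sup_fib (s t : Bool) (x y : L) :
    fib s x ⊔ fib t y = if s = t then fib s (x ⊔ y) else cc := rfl

@[simp] theorem zero_inf (a : D L) : zero ⊓ a = zero := rfl
@[simp] theorem inf_zero (a : D L) : a ⊓ zero = zero := by cases a <;> rfl
@[simp] theorem one_inf (a : D L) : one ⊓ a = a := rfl
@[simp] theorem inf_one (a : D L) : a ⊓ one = a := by cases a <;> rfl
@[simp] theorem cc_inf_cc : (cc : D L) ⊓ cc = cc := rfl
@[simp] theorem cc_inf_fib (s : Bool) (x : L) : cc ⊓ fib s x = fib s x := rfl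
@[simp] theorem fib_inf_cc (s : Bool) (x : L) : fib s x ⊓ cc = fib s x := rfl
@[simp] theorem fib_inf_fib (s t : Bool) (x y : L) :
    fib s x ⊓ fib t y = if s = t then fib s (x ⊓ y) else zero := rfl

@[simp] theorem zero_mul' (a : D L) : zero * a = zero := rfl
@[simp] theorem mul_zero' (a : D L) : a * zero = zero := by cases a <;> rfl
@[simp] theorem one_mul' (a : D L) : one * a = a := rfl
@[simp] theorem mul_one' (a : D L) : a * one = a := by cases a <;> rfl
@[simp] theorem cc_mul_cc : (cc : D L) * cc = cc := rfl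
@[simp] theorem cc_mul_fib (s : Bool) (x : L) : cc * fib s x = fib s ⊥ := rfl
@[simp] theorem fib_mul_cc (s : Bool) (x : L) : fib s x * cc = fib s ⊥ := rfl
@[simp] theorem fib_mul_fib (s t : Bool) (x y : L) :
    fib s x * fib t y = if s = t then fib s ⊥ else zero := rfl

@[simp] theorem res_zero_left (a : D L) : res zero a = one := rfl
@[simp] theorem res_one_left (a : D L) : res one a = a := rfl
@[simp] theorem res_one_right (a : D L) : res a one = one := by cases a <;> rfl
@[simp] theorem res_cc_cc : res (cc : D L) cc = one := rfl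
@[simp] theorem res_cc_zero : res (cc : D L) zero = zero := rfl
@[simp] theorem res_cc_fib (s : Bool) (x : L) : res cc (fib s x) = fib s ⊤ := rfl
@[simp] theorem res_fib_cc (s : Bool) (x : L) : res (fib s x) cc = one := rfl
@[simp] theorem res_fib_zero (s : Bool) (x : L) : res (fib s x) zero = fib (!s) ⊤ := rfl
open Classical in
theorem res_fib_fib (s t : Bool) (x y : L) :
    res (fib s x) (fib t y) = if s = t then (if x ≤ y then one else cc) else fib t ⊤ := rfl

/-- Double negation. -/
noncomputable def nn (a : D L) : D L := res (res a zero) zero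

@[simp] theorem nn_zero : nn (zero : D L) = zero := rfl
@[simp] theorem nn_one : nn (one : D L) = one := rfl
@[simp] theorem nn_cc : nn (cc : D L) = one := rfl
@[simp] theorem nn_fib (s : Bool) (x : L) : nn (fib s x) = fib s ⊤ := by
  simp [nn]

theorem le_cc {a : D L} (h : a ≠ one) : a ≤ cc := by
  cases a <;> simp_all

theorem sup_neg_of_ne {a : D L} (h0 : a ≠ zero) (h1 : a ≠ one) : a ⊔ res a zero = cc := by
  rcases a with _ | _ | _ | ⟨s, x⟩ <;> simp_all

theorem sup_neg (a : D L) : a ⊔ res a zero = cc ∨ a ⊔ res a zero = one := by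
  rcases a with _ | _ | _ | ⟨s, x⟩ <;> simp_all

theorem jp {s : Bool} {a b : D L} (h : fib s ⊥ ≤ a ⊔ b) : fib s ⊥ ≤ a ∨ fib s ⊥ ≤ b := by
  rcases a with _ | _ | _ | ⟨i, x⟩ <;> rcases b with _ | _ | _ | ⟨j, y⟩ <;> simp_all
  split_ifs at h with h1
  · simp_all
  · cases s <;> cases i <;> cases j <;> simp_all

theorem neg_supp {s : Bool} {a : D L} (h : ¬ fib s ⊥ ≤ a) : fib s ⊥ ≤ res a zero := by
  rcases a with _ | _ | _ | ⟨i, x⟩ <;> simp_all
  cases s <;> cases i <;> simp_all

theorem not_neg_supp {s : Bool} {a : D L} (h : fib s ⊥ ≤ a) : ¬ fib s ⊥ ≤ res a zero := by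
  rcases a with _ | _ | _ | ⟨i, x⟩ <;> simp_all

theorem L1 {p a : D L} (h : ∀ s, fib s ⊥ ≤ p → fib s ⊥ ≤ a) : p ≤ nn a := by
  have h1 := h true
  have h2 := h false
  rcases a with _ | _ | _ | ⟨i, x⟩ <;> rcases p with _ | _ | _ | ⟨j, y⟩ <;> simp_all

theorem L2 {q b : D L} (h : ∀ s, fib s ⊥ ≤ b → fib s ⊥ ≤ q) : nn b * cc ≤ q := by
  have h1 := h true
  have h2 := h false
  rcases b with _ | _ | _ | ⟨i, x⟩ <;> rcases q with _ | _ | _ | ⟨j, y⟩ <;> simp_all

theorem exists_supp {p : D L} (h : p ≠ zero) : ∃ s, fib s ⊥ ≤ p := by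
  rcases p with _ | _ | _ | ⟨j, y⟩ <;> simp_all

end D

end Pool.Agent.R605.CIP
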