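import Mathlib

/-!
# Formulas, the Hilbert calculus of `FL_ew`, axiomatic extensions, Craig interpolation
-/

set_option autoImplicit false

namespace Pool.Agent.R605.CIP

/-- Formulas of `FL_ew` over the variables `0, 1, 2, …`. The constants `e` and `f` are `fone`
and `fbot`, `conj` and `disj` are the lattice connectives, `fus` is fusion and `imp` is the
implication. -/
inductive Fm : Type
  | var (n : ℕ)
  | fbot
  | fone
  | conj (a b : Fm)
  | disj (a b : Fm)
  | fus (a b : Fm)
  | imp (a b : Fm)

namespace Fm

/-- The set of variables of a formula. -/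
def vars : Fm → Finset ℕ
  | var n => {n}
  | fbot => ∅
  | fone => ∅
  | conj a b => vars a ∪ vars b
  | disj a b => vars a ∪ vars b
  | fus a b => vars a ∪ vars b
  | imp a b => vars a ∪ vars b

/-- Substitution of formulas for variables. -/
def subst (s : ℕ → Fm) : Fm → Fm
  | var n => s n
  | fbot => fbot
  | fone => fone
  | conj a b => conj (subst s a) (subst s b)
  | disj a b => disj (subst s a) (subst s b)
  | fus a b => fus (subst s a) (subst s b)
  | imp a b => imp (subst s a) (subst s b)

end Fm

open Fm

/-- Theorems of the Hilbert calculus of `FL_ew` with the formulas of `S` as additional axioms. The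
only rule is modus ponens. -/
inductive Thm (S : Set Fm) : Fm → Prop
  | ax (a : Fm) : a ∈ S → Thm S a
  | mp (a b : Fm) : Thm S a → Thm S (imp a b) → Thm S b
  | syl (a b c : Fm) : Thm S (imp (imp a b) (imp (imp b c) (imp a c)))
  | orl (a b : Fm) : Thm S (imp a (disj a b))
  | orr (a b : Fm) : Thm S (imp b (disj a b))
  | ore (a b c : Fm) : Thm S (imp (imp a c) (imp (imp b c) (imp (disj a b) c)))
  | andl (a b : Fm) : Thm S (imp (conj a b) a)
  | andr (a b : Fm) : Thm S (imp (conj a b) b)
  | andi (a b c : Fm) : Thm S (imp (imp c a) (imp (imp c b) (imp c (conj a b))))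
  | weak (a b : Fm) : Thm S (imp (fus a b) a)
  | comm (a b : Fm) : Thm S (imp (fus a b) (fus b a))
  | uncurry (a b c : Fm) : Thm S (imp (imp a (imp b c)) (imp (fus a b) c))
  | curry (a b c : Fm) : Thm S (imp (imp (fus a b) c) (imp a (imp b c)))
  | efq (a : Fm) : Thm S (imp fbot a)
  | unit : Thm S fone

/-- The Craig interpolation property. -/
def HasCIP (L : Set Fm) : Prop :=
  ∀ a b : Fm, imp a b ∈ L → ∃ d : Fm, imp a d ∈ L ∧ imp d b ∈ L ∧ vars d ⊆ vars a ∩ vars b

/-! ### Algebras -/

/-- `FL_ew`-algebras. -/
class FLA (A : Type) extends Lattice A, BoundedOrder A, CommMonoid A where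
  /-- the residuum -/
  res : A → A → A
  adj : ∀ x y z : A, x * y ≤ z ↔ x ≤ res y z
  one_top : (1 : A) = ⊤

export FLA (res)

/-- The value of a formula. -/
def eval {A : Type} [FLA A] (v : ℕ → A) : Fm → A
  | var n => v n
  | fbot => ⊥
  | fone => 1
  | conj a b => eval v a ⊓ eval v b
  | disj a b => eval v a ⊔ eval v b
  | fus a b => eval v a * eval v b
  | imp a b => res (eval v a) (eval v b)

/-- `a` is valid in all `FL_ew`-algebras in which the formulas of `S` are valid. -/
def Valid (S : Set Fm) (a : Fm) : Prop :=
  ∀ (A : Type) [FLA A], (∀ b ∈ S, ∀ v : ℕ → A, eval v b = 1) → ∀ v : ℕ → A, eval v a = 1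

/-- `L` is (the set of theorems of) an axiomatic extension of `FL_ew`: there is a set `S` of
formulas, closed under substitution, such that `L` is the set of the theorems of the Hilbert
calculus of `FL_ew` with the additional axioms `S`, and `L` is also the set of the formulas valid
in all `FL_ew`-algebras in which the formulas of `S` are valid. -/
def IsAxExt (L : Set Fm) : Prop :=
  ∃ S : Set Fm, (∀ (s : ℕ → Fm), ∀ a ∈ S, subst s a ∈ S) ∧
    (∀ a, a ∈ L ↔ Thm S a) ∧ (∀ a, a ∈ L ↔ Valid S a)

section

variable {A : Type} [FLA A]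

theorem le_one' (x : A) : x ≤ 1 := by rw [FLA.one_top]; exact le_top

theorem one_le_iff {x : A} : 1 ≤ x ↔ x = 1 := by
  constructor
  · intro h; exact le_antisymm (le_one' x) h
  · rintro rfl; exact le_rfl

theorem mul_mono' {x y z w : A} (h : x ≤ y) (h' : z ≤ w) : x * z ≤ y * w := by
  have h1 : x * z ≤ y * z := by
    rw [FLA.adj]
    exact h.trans ((FLA.adj _ _ _).1 le_rfl)
  refine h1.trans ?_
  rw [mul_comm y z, mul_comm y w, FLA.adj]
  exact h'.trans ((FLA.adj _ _ _).1 le_rfl)

theorem mul_le_left' (x y : A) : x * y ≤ x := by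
  have := mul_mono' (le_refl x) (le_one' y)
  rwa [mul_one] at this

theorem mul_le_right'' (x y : A) : x * y ≤ y := by
  rw [mul_comm]; exact mul_le_left' y x

theorem res_mul_le (x y : A) : res x y * x ≤ y := (FLA.adj _ _ _).2 le_rfl

theorem mul_res_le (x y : A) : x * res x y ≤ y := by rw [mul_comm]; exact res_mul_le x y

theorem res_eq_one {x y : A} : res x y = 1 ↔ x ≤ y := by
  rw [← one_le_iff, ← FLA.adj, one_mul]

theorem one_res (x : A) : res 1 x = x := by
  apply le_antisymm
  · have := res_mul_le 1 x
    rwa [mul_one] at this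
  · rw [← FLA.adj, mul_one]

theorem eval_subst (v : ℕ → A) (s : ℕ → Fm) (a : Fm) :
    eval v (subst s a) = eval (fun n => eval v (s n)) a := by
  induction a with
  | var n => rfl
  | fbot => rfl
  | fone => rfl
  | conj a b ha hb => simp only [subst, eval, ha, hb]
  | disj a b ha hb => simp only [subst, eval, ha, hb]
  | fus a b ha hb => simp only [subst, eval, ha, hb]
  | imp a b ha hb => simp only [subst, eval, ha, hb]

theorem eval_congr {v w : ℕ → A} {a : Fm} (h : ∀ n ∈ vars a, v n = w n) :
    eval v a = eval w a := by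
  induction a with
  | var n => exact h n (by simp [vars])
  | fbot => rfl
  | fone => rfl
  | conj a b ha hb =>
    simp only [eval]
    rw [ha fun n hn => h n (by simp [vars, hn]), hb fun n hn => h n (by simp [vars, hn])]
  | disj a b ha hb =>
    simp only [eval]
    rw [ha fun n hn => h n (by simp [vars, hn]), hb fun n hn => h n (by simp [vars, hn])]
  | fus a b ha hb =>
    simp only [eval]
    rw [ha fun n hn => h n (by simp [vars, hn]), hb fun n hn => h n (by simp [vars, hn])]
  | imp a b ha hb =>
    simp only [eval]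
    rw [ha fun n hn => h n (by simp [vars, hn]), hb fun n hn => h n (by simp [vars, hn])]

variable (A) in
/-- The logic of an algebra. -/
def Log : Set Fm := {a | ∀ v : ℕ → A, eval v a = 1}

theorem mem_log_imp {a b : Fm} : imp a b ∈ Log A ↔ ∀ v : ℕ → A, eval v a ≤ eval v b := by
  constructor
  · intro h v; exact res_eq_one.1 (h v)
  · intro h v; exact res_eq_one.2 (h v)

/-- Soundness of the Hilbert calculus. -/
theorem sound (v : ℕ → A) (S : Set Fm) (hS : ∀ a ∈ S, eval v a = 1) (a : Fm) (h : Thm S a) :
    eval v a = 1 := by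
  induction h with
  | ax a h => exact hS a h
  | mp a b _ _ h1 h2 =>
    have h3 : res (eval v a) (eval v b) = 1 := h2
    rw [res_eq_one, h1] at h3
    exact one_le_iff.1 h3
  | syl a b c =>
    simp only [eval]
    rw [res_eq_one, ← FLA.adj, ← FLA.adj]
    calc res (eval v a) (eval v b) * res (eval v b) (eval v c) * eval v a
        = res (eval v b) (eval v c) * (res (eval v a) (eval v b) * eval v a) := by
          rw [mul_comm (res (eval v a) (eval v b)), mul_assoc]
      _ ≤ res (eval v b) (eval v c) * eval v b := mul_mono' le_rfl (res_mul_le _ _)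
      _ ≤ eval v c := res_mul_le _ _
  | orl a b => exact res_eq_one.2 le_sup_left
  | orr a b => exact res_eq_one.2 le_sup_right
  | ore a b c =>
    simp only [eval]
    rw [res_eq_one, ← FLA.adj, ← FLA.adj, mul_comm, FLA.adj]
    apply sup_le
    · rw [← FLA.adj, ← mul_assoc]
      exact (mul_le_left' _ _).trans (mul_res_le _ _)
    · rw [← FLA.adj, mul_comm (res (eval v a) (eval v c)), ← mul_assoc]
      exact (mul_le_left' _ _).trans (mul_res_le _ _)
  | andl a b => exact res_eq_one.2 inf_le_left
  | andr a b => exact res_eq_one.2 inf_le_right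
  | andi a b c =>
    simp only [eval]
    rw [res_eq_one, ← FLA.adj, ← FLA.adj]
    apply le_inf
    · rw [mul_comm (res (eval v c) (eval v a)), mul_assoc]
      exact (mul_le_right'' _ _).trans (res_mul_le _ _)
    · rw [mul_assoc]
      exact (mul_le_right'' _ _).trans (res_mul_le _ _)
  | weak a b => exact res_eq_one.2 (mul_le_left' _ _)
  | comm a b => exact res_eq_one.2 (le_of_eq (mul_comm _ _))
  | uncurry a b c =>
    simp only [eval]
    rw [res_eq_one, ← FLA.adj, ← mul_assoc]
    exact (mul_mono' (res_mul_le _ _) le_rfl).trans (res_mul_le _ _)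
  | curry a b c =>
    simp only [eval]
    rw [res_eq_one, ← FLA.adj, ← FLA.adj, mul_assoc]
    exact res_mul_le _ _
  | efq a => exact res_eq_one.2 bot_le
  | unit => rfl

variable (A) in
/-- The logic of an algebra is an axiomatic extension of `FL_ew`. -/
theorem isAxExt_log : IsAxExt (Log A) := by
  refine ⟨Log A, fun s a ha v => ?_, fun a => ⟨fun h => Thm.ax a h, fun h v => ?_⟩,
    fun a => ⟨fun h B _ hB v => hB a h v, fun h => h A fun b hb v => hb v⟩⟩
  · rw [eval_subst]; exact ha _
  · exact sound v (Log A) (fun b hb => hb v) a h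

end

end Pool.Agent.R605.CIP
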