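import Pool.Agent.R605.CIP.Pat

/-!
# The logics of the algebras `D (HS k)` are different
-/

set_option autoImplicit false

namespace Pool.Agent.R605.CIP

open D HS

/-- The formulas `i → j` for `i, j < n` different. -/
def pairs (n : ℕ) : List Fm :=
  (((List.range n).product (List.range n)).filter fun p => p.1 ≠ p.2).map fun p =>
    Fm.imp (Fm.var p.1) (Fm.var p.2)

theorem mem_pairs (n : ℕ) (a : Fm) : a ∈ pairs n ↔
    ∃ i j, i < n ∧ j < n ∧ i ≠ j ∧ a = Fm.imp (Fm.var i) (Fm.var j) := by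
  unfold pairs
  simp only [List.mem_map, List.mem_filter, List.pair_mem_product, List.mem_range, Prod.exists,
    decide_eq_true_eq]
  constructor
  · rintro ⟨i, j, ⟨⟨h1, h2⟩, h3⟩, rfl⟩
    exact ⟨i, j, h1, h2, h3, rfl⟩
  · rintro ⟨i, j, h1, h2, h3, rfl⟩
    exact ⟨i, j, ⟨⟨h1, h2⟩, h3⟩, rfl⟩

/-- The side and the chain of an element. -/
def place {k : ℕ} : D (HS (k + 1)) → Bool × Fin (k + 1)
  | .zero => (false, 0)
  | .one => (false, 0)
  | .cc => (false, 0)
  | .fib s .bot => (s, 0)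
  | .fib s .top => (s, 0)
  | .fib s (.mid j _) => (s, j)

theorem comparable {k : ℕ} {a b : D (HS (k + 1))} (h : place a = place b) : a ≤ b ∨ b ≤ a := by
  rcases a with _ | _ | _ | ⟨s, _ | _ | ⟨j, x⟩⟩ <;>
    rcases b with _ | _ | _ | ⟨t, _ | _ | ⟨i, y⟩⟩ <;> simp_all [place]
  exact le_total x y

theorem mem_log (k : ℕ) : bigOr (pairs (2 * (k + 1) + 1)) ∈ Log (D (HS (k + 1))) := by
  intro v
  have hcard : (Finset.univ : Finset (Bool × Fin (k + 1))).card <
      (Finset.range (2 * (k + 1) + 1)).card := by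
    simp [Fintype.card_prod]
  obtain ⟨i, hi, j, hj, hij, h⟩ := Finset.exists_ne_map_eq_of_card_lt_of_maps_to hcard
    (f := fun n => place (v n)) (fun _ _ => Finset.mem_univ _)
  rw [Finset.mem_range] at hi hj
  rw [← one_le_iff]
  rcases comparable h with h1 | h1
  · have h2 : eval v (Fm.imp (Fm.var i) (Fm.var j)) = 1 := res_eq_one.2 h1
    rw [← h2]
    exact le_bigOr v _ _ ((mem_pairs _ _).2 ⟨i, j, hi, hj, hij, rfl⟩)
  · have h2 : eval v (Fm.imp (Fm.var j) (Fm.var i)) = 1 := res_eq_one.2 h1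
    rw [← h2]
    exact le_bigOr v _ _ ((mem_pairs _ _).2 ⟨j, i, hj, hi, hij.symm, rfl⟩)

theorem not_mem_log (k n : ℕ) (h : n ≤ 2 * k) : bigOr (pairs n) ∉ Log (D (HS k)) := by
  intro hn
  let v : ℕ → D (HS k) := fun i =>
    if h : i / 2 < k then fib (decide (i % 2 = 1)) (mid ⟨i / 2, h⟩ 0) else D.zero
  have h1 : eval v (bigOr (pairs n)) ≤ cc := by
    refine bigOr_le v cc _ fun a ha => ?_
    obtain ⟨i, j, hi, hj, hij, rfl⟩ := (mem_pairs _ _).1 ha
    refine le_cc fun h2 => ?_
    have h3 : v i ≤ v j := res_eq_one.1 h2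
    have hi' : i / 2 < k := by omega
    have hj' : j / 2 < k := by omega
    simp only [v, dif_pos hi', dif_pos hj', fib_le_fib, mid_le_mid, le_refl, and_true,
      Fin.mk.injEq, decide_eq_decide] at h3
    omega
  rw [hn v] at h1
  exact not_one_le_cc h1

theorem log_injective : Function.Injective fun k : ℕ => Log (D (HS (k + 1))) := by
  intro k l h
  by_contra hne
  rcases Nat.lt_or_gt_of_ne hne with h1 | h1
  · have h2 := mem_log k
    have h3 : bigOr (pairs (2 * (k + 1) + 1)) ∈ Log (D (HS (l + 1))) := by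
      have : Log (D (HS (k + 1))) = Log (D (HS (l + 1))) := h
      rwa [← this]
    exact not_mem_log _ _ (by omega) h3
  · have h2 := mem_log l
    have h3 : bigOr (pairs (2 * (l + 1) + 1)) ∈ Log (D (HS (k + 1))) := by
      have : Log (D (HS (k + 1))) = Log (D (HS (l + 1))) := h
      rwa [this]
    exact not_mem_log _ _ (by omega) h3

end Pool.Agent.R605.CIP
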