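import Pool.Agent.R605.CIP.Alg

/-!
# Endomorphisms of `D L`
-/

set_option autoImplicit false
set_option linter.unusedSectionVars false
set_option linter.unusedSimpArgs false

namespace Pool.Agent.R605.CIP

namespace D

variable {L : Type} [Lattice L] [BoundedOrder L]

/-- Endomorphisms. -/
structure IsEnd (F : D L → D L) : Prop where
  zero : F zero = zero
  one : F one = one
  sup : ∀ a b, F (a ⊔ b) = F a ⊔ F b
  inf : ∀ a b, F (a ⊓ b) = F a ⊓ F b
  mul : ∀ a b, F (a * b) = F a * F b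
  res : ∀ a b, F (res a b) = res (F a) (F b)

theorem IsEnd.eval {F : D L → D L} (hF : IsEnd F) (v : ℕ → D L) (a : Fm) :
    eval (fun n => F (v n)) a = F (eval v a) := by
  induction a with
  | var n => rfl
  | fbot => exact hF.zero.symm
  | fone => exact hF.one.symm
  | conj a b ha hb => simp only [CIP.eval, ha, hb, hF.inf]
  | disj a b ha hb => simp only [CIP.eval, ha, hb, hF.sup]
  | fus a b ha hb => simp only [CIP.eval, ha, hb, hF.mul]
  | imp a b ha hb => simp only [CIP.eval, ha, hb, hF.res]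

theorem isEnd_id : IsEnd (fun a : D L => a) :=
  ⟨rfl, rfl, fun _ _ => rfl, fun _ _ => rfl, fun _ _ => rfl, fun _ _ => rfl⟩

/-- The homomorphism onto the two-element algebra given by a side. -/
def chi (s : Bool) : D L → D L
  | zero => zero
  | one => one
  | cc => one
  | fib t _ => if t = s then one else zero

theorem chi_of_le {s : Bool} {a : D L} (h : fib s ⊥ ≤ a) : chi s a = one := by
  rcases a with _ | _ | _ | ⟨i, x⟩ <;> simp_all [chi]

theorem chi_of_not_le {s : Bool} {a : D L} (h : ¬ fib s ⊥ ≤ a) : chi s a = zero := by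
  rcases a with _ | _ | _ | ⟨i, x⟩ <;> simp_all [chi]
  cases i <;> cases s <;> simp_all

theorem isEnd_chi (s : Bool) : IsEnd (chi s : D L → D L) where
  zero := rfl
  one := rfl
  sup a b := by
    rcases a with _ | _ | _ | ⟨i, x⟩ <;> rcases b with _ | _ | _ | ⟨j, y⟩ <;> simp [chi]
    cases i <;> cases j <;> cases s <;> simp [chi]
  inf a b := by
    rcases a with _ | _ | _ | ⟨i, x⟩ <;> rcases b with _ | _ | _ | ⟨j, y⟩ <;> simp [chi]
    cases i <;> cases j <;> cases s <;> simp [chi]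
  mul a b := by
    rcases a with _ | _ | _ | ⟨i, x⟩ <;> rcases b with _ | _ | _ | ⟨j, y⟩ <;> simp [chi]
    cases i <;> cases j <;> cases s <;> simp [chi]
  res a b := by
    rcases a with _ | _ | _ | ⟨i, x⟩ <;> rcases b with _ | _ | _ | ⟨j, y⟩ <;> simp [chi]
    · cases i <;> cases s <;> simp
    · rw [res_fib_fib]
      by_cases h : x ≤ y <;> cases i <;> cases j <;> cases s <;> simp [chi, h]

/-- Interchanging the two sides. -/
def swp : D L → D L
  | zero => zero
  | one => one
  | cc => cc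
  | fib t x => fib (!t) x

theorem isEnd_swp : IsEnd (swp : D L → D L) where
  zero := rfl
  one := rfl
  sup a b := by
    rcases a with _ | _ | _ | ⟨i, x⟩ <;> rcases b with _ | _ | _ | ⟨j, y⟩ <;> simp [swp]
    cases i <;> cases j <;> simp [swp]
  inf a b := by
    rcases a with _ | _ | _ | ⟨i, x⟩ <;> rcases b with _ | _ | _ | ⟨j, y⟩ <;> simp [swp]
    cases i <;> cases j <;> simp [swp]
  mul a b := by
    rcases a with _ | _ | _ | ⟨i, x⟩ <;> rcases b with _ | _ | _ | ⟨j, y⟩ <;> simp [swp]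
    cases i <;> cases j <;> simp [swp]
  res a b := by
    rcases a with _ | _ | _ | ⟨i, x⟩ <;> rcases b with _ | _ | _ | ⟨j, y⟩ <;> simp [swp]
    rw [res_fib_fib, res_fib_fib]
    by_cases h : x ≤ y <;> cases i <;> cases j <;> simp [swp, h]

theorem swp_swp (a : D L) : swp (swp a) = a := by
  cases a <;> simp [swp]

theorem swp_le_swp {a b : D L} : swp a ≤ swp b ↔ a ≤ b := by
  rcases a with _ | _ | _ | ⟨i, x⟩ <;> rcases b with _ | _ | _ | ⟨j, y⟩ <;> simp [swp]

theorem L3 {p q : D L} (h : p ≤ q) (h' : swp p ≤ q) :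
    p = zero ∨ q = one ∨ (p ≤ cc ∧ cc ≤ q) := by
  rcases p with _ | _ | _ | ⟨i, x⟩ <;> rcases q with _ | _ | _ | ⟨j, y⟩ <;> simp_all [swp]

/-- The map given by a pair of maps of `L`. -/
def fmap (g : Bool → L → L) : D L → D L
  | zero => zero
  | one => one
  | cc => cc
  | fib t x => fib t (g t x)

/-- Bounded lattice embeddings. -/
structure IsEmb (g : L → L) : Prop where
  bot : g ⊥ = ⊥
  top : g ⊤ = ⊤
  sup : ∀ x y, g (x ⊔ y) = g x ⊔ g y
  inf : ∀ x y, g (x ⊓ y) = g x ⊓ g y
  le : ∀ x y, g x ≤ g y ↔ x ≤ y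

theorem isEnd_fmap (g : Bool → L → L) (hg : ∀ s, IsEmb (g s)) : IsEnd (fmap g) where
  zero := rfl
  one := rfl
  sup a b := by
    rcases a with _ | _ | _ | ⟨i, x⟩ <;> rcases b with _ | _ | _ | ⟨j, y⟩ <;> simp [fmap]
    cases i <;> cases j <;> simp [fmap, (hg _).sup]
  inf a b := by
    rcases a with _ | _ | _ | ⟨i, x⟩ <;> rcases b with _ | _ | _ | ⟨j, y⟩ <;> simp [fmap]
    cases i <;> cases j <;> simp [fmap, (hg _).inf]
  mul a b := by
    rcases a with _ | _ | _ | ⟨i, x⟩ <;> rcases b with _ | _ | _ | ⟨j, y⟩ <;>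
      simp [fmap, (hg _).bot]
    cases i <;> cases j <;> simp [fmap, (hg _).bot]
  res a b := by
    rcases a with _ | _ | _ | ⟨i, x⟩ <;> rcases b with _ | _ | _ | ⟨j, y⟩ <;>
      simp [fmap, (hg _).top]
    rw [res_fib_fib, res_fib_fib]
    by_cases h : x ≤ y <;> cases i <;> cases j <;> simp [fmap, h, (hg _).top, (hg _).le]

theorem fmap_le_fmap (g : Bool → L → L) (hg : ∀ s, IsEmb (g s)) {a b : D L} :
    fmap g a ≤ fmap g b ↔ a ≤ b := by
  rcases a with _ | _ | _ | ⟨i, x⟩ <;> rcases b with _ | _ | _ | ⟨j, y⟩ <;> simp [fmap]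
  cases i <;> cases j <;> simp [(hg _).le]

end D

namespace HS

variable {k : ℕ}

/-- The map of `HS k` given by a permutation of the chains and maps of the chains. -/
def hmap (π : Fin k → Fin k) (f : Fin k → ℚ → ℚ) : HS k → HS k
  | bot => bot
  | top => top
  | mid j x => mid (π j) (f j x)

theorem isEmb_hmap (π : Fin k → Fin k) (hπ : Function.Injective π) (f : Fin k → ℚ → ℚ)
    (hf : ∀ j, StrictMono (f j)) : D.IsEmb (hmap π f) where
  bot := rfl
  top := rfl
  sup x y := by
    simp only [sup_def]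
    rcases x with _ | _ | ⟨i, x⟩ <;> rcases y with _ | _ | ⟨j, y⟩ <;> simp [hmap, sup]
    by_cases h : i = j
    · subst h
      simp [hmap, (hf i).monotone.map_max]
    · rw [if_neg h, if_neg (fun h' => h (hπ h'))]
  inf x y := by
    simp only [inf_def]
    rcases x with _ | _ | ⟨i, x⟩ <;> rcases y with _ | _ | ⟨j, y⟩ <;> simp [hmap, inf]
    by_cases h : i = j
    · subst h
      simp [hmap, (hf i).monotone.map_min]
    · rw [if_neg h, if_neg (fun h' => h (hπ h'))]
  le x y := by
    simp only [le_def]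
    rcases x with _ | _ | ⟨i, x⟩ <;> rcases y with _ | _ | ⟨j, y⟩ <;> simp [hmap, le]
    constructor
    · rintro ⟨h1, h2⟩
      have h3 := hπ h1
      subst h3
      exact ⟨rfl, (hf i).le_iff_le.1 h2⟩
    · rintro ⟨rfl, h2⟩
      exact ⟨rfl, (hf i).le_iff_le.2 h2⟩

end HS

end Pool.Agent.R605.CIP
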