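import Pool.Agent.R605.CIP.Endo

/-!
# Extension of finite partial maps to endomorphisms of `D (HS k)`
-/

set_option autoImplicit false

namespace Pool.Agent.R605.CIP

open Order Order.PartialIso in
theorem exists_strictMono (S : Finset (ℚ × ℚ))
    (h : ∀ a ∈ S, ∀ b ∈ S, (a.1 ≤ b.1 ↔ a.2 ≤ b.2)) :
    ∃ f : ℚ → ℚ, StrictMono f ∧ ∀ a ∈ S, f a.1 = a.2 := by
  have hc : ∀ p ∈ S, ∀ q ∈ S, cmp (Prod.fst p) (Prod.fst q) = cmp (Prod.snd p) (Prod.snd q) := by
    intro p hp q hq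
    have h1 := h p hp q hq
    have h2 := h q hq p hp
    rcases lt_trichotomy p.1 q.1 with h3 | h3 | h3
    · have h4 : p.2 < q.2 := lt_of_not_ge fun h5 => absurd (h2.2 h5) (not_le_of_gt h3)
      rw [(cmp_eq_lt_iff _ _).2 h3, (cmp_eq_lt_iff _ _).2 h4]
    · have h4 : p.2 = q.2 := le_antisymm (h1.1 h3.le) (h2.1 h3.ge)
      rw [(cmp_eq_eq_iff _ _).2 h3, (cmp_eq_eq_iff _ _).2 h4]
    · have h4 : q.2 < p.2 := lt_of_not_ge fun h5 => absurd (h1.2 h5) (not_le_of_gt h3)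
      rw [(cmp_eq_gt_iff _ _).2 h3, (cmp_eq_gt_iff _ _).2 h4]
  let P : PartialIso ℚ ℚ := ⟨S, hc⟩
  let I : Ideal (PartialIso ℚ ℚ) := idealOfCofinals P (definedAtLeft ℚ)
  let F (a : ℚ) := funOfIdeal a I (cofinal_meets_idealOfCofinals P (definedAtLeft ℚ) a)
  have key : ∀ a b : ℚ, cmp a b = cmp (F a).1 (F b).1 := by
    intro a b
    obtain ⟨f, hf, ha⟩ := (F a).2
    obtain ⟨g, hg, hb⟩ := (F b).2
    obtain ⟨m, _, fm, gm⟩ := I.directed _ hf _ hg
    exact m.prop (a, _) (fm ha) (b, _) (gm hb)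
  refine ⟨fun a => (F a).1, ?_, ?_⟩
  · intro a b hab
    have := key a b
    rw [(cmp_eq_lt_iff _ _).2 hab] at this
    exact (cmp_eq_lt_iff _ _).1 this.symm
  · intro a ha
    obtain ⟨f, hf, hfa⟩ := (F a.1).2
    obtain ⟨m, _, fm, pm⟩ := I.directed _ hf _ (mem_idealOfCofinals P (definedAtLeft ℚ))
    have := m.prop (a.1, _) (fm hfa) a (pm ha)
    simp only [cmp_self_eq_eq] at this
    exact (cmp_eq_eq_iff _ _).1 this.symm

theorem exists_strictMono_gt (S : Finset (ℚ × ℚ))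
    (h : ∀ a ∈ S, ∀ b ∈ S, (a.1 ≤ b.1 ↔ a.2 ≤ b.2)) (x y : ℚ)
    (hxy : ∀ a ∈ S, x ≤ a.1 → y < a.2) :
    ∃ f : ℚ → ℚ, StrictMono f ∧ (∀ a ∈ S, f a.1 = a.2) ∧ y < f x := by
  by_cases hx : ∃ a ∈ S, a.1 = x
  · obtain ⟨a, ha, rfl⟩ := hx
    obtain ⟨f, hf, hfS⟩ := exists_strictMono S h
    refine ⟨f, hf, hfS, ?_⟩
    rw [hfS a ha]
    exact hxy a ha le_rfl
  · have hx' : ∀ a ∈ S, a.1 ≠ x := fun a ha h => hx ⟨a, ha, h⟩
    obtain ⟨m, hm1, hm2⟩ := Order.exists_between_finsets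
      (insert y ((S.filter fun a => a.1 < x).image Prod.snd))
      ((S.filter fun a => x < a.1).image Prod.snd) (by
        intro u hu w hw
        rw [Finset.mem_image] at hw
        obtain ⟨b, hb, rfl⟩ := hw
        rw [Finset.mem_filter] at hb
        rw [Finset.mem_insert, Finset.mem_image] at hu
        rcases hu with rfl | ⟨a, ha, rfl⟩
        · exact hxy b hb.1 hb.2.le
        · rw [Finset.mem_filter] at ha
          refine lt_of_not_ge fun h5 => ?_
          have := (h b hb.1 a ha.1).2 h5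
          exact absurd (ha.2.trans hb.2) (not_lt_of_ge this))
    have h1 : ∀ a ∈ S, a.1 < x → a.2 < m := fun a ha hax =>
      hm1 _ (Finset.mem_insert_of_mem (Finset.mem_image.2 ⟨a, Finset.mem_filter.2 ⟨ha, hax⟩, rfl⟩))
    have h2 : ∀ a ∈ S, x < a.1 → m < a.2 := fun a ha hax =>
      hm2 _ (Finset.mem_image.2 ⟨a, Finset.mem_filter.2 ⟨ha, hax⟩, rfl⟩)
    obtain ⟨f, hf, hfS⟩ := exists_strictMono (insert (x, m) S) (by
      intro a ha b hb
      rw [Finset.mem_insert] at ha hb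
      rcases ha with rfl | ha <;> rcases hb with rfl | hb
      · simp
      · rcases lt_or_gt_of_ne (hx' b hb) with h3 | h3
        · exact ⟨fun h4 => absurd h3 (not_lt_of_ge h4), fun h4 => absurd (h1 b hb h3) (not_lt_of_ge h4)⟩
        · exact ⟨fun _ => (h2 b hb h3).le, fun _ => h3.le⟩
      · rcases lt_or_gt_of_ne (hx' a ha) with h3 | h3
        · exact ⟨fun _ => (h1 a ha h3).le, fun _ => h3.le⟩
        · exact ⟨fun h4 => absurd h3 (not_lt_of_ge h4), fun h4 => absurd (h2 a ha h3) (not_lt_of_ge h4)⟩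
      · exact h a ha b hb)
    refine ⟨f, hf, fun a ha => hfS a (Finset.mem_insert_of_mem ha), ?_⟩
    have h3 : f x = m := hfS (x, m) (Finset.mem_insert_self _ _)
    rw [h3]
    exact hm1 _ (Finset.mem_insert_self _ _)

open D HS

variable {k : ℕ}

/-- The rational number in an element of a chain. -/
def getx : D (HS k) → ℚ
  | .fib _ (.mid _ x) => x
  | _ => 0

/-- `b` has the place prescribed by `a` and the permutations `π`. -/
def Rel (π : Bool → Fin k → Fin k) (a b : D (HS k)) : Prop :=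
  (a = b ∧ ∀ s j x, a ≠ fib s (mid j x)) ∨
    ∃ s j x y, a = fib s (mid j x) ∧ b = fib s (mid (π s j) y)

open Classical in
theorem exists_maps (W : Finset ℕ) (v w : ℕ → D (HS k)) (π : Bool → Fin k → Fin k)
    (hsh : ∀ n ∈ W, Rel π (v n) (w n))
    (hord : ∀ m ∈ W, ∀ n ∈ W, (v m ≤ v n ↔ w m ≤ w n))
    (p q : D (HS k)) (hpq : ∀ n ∈ W, ¬ (p ≤ v n ∧ w n ≤ q)) :
    ∃ f : Bool → Fin k → ℚ → ℚ, (∀ s j, StrictMono (f s j)) ∧
      (∀ n ∈ W, fmap (fun s => hmap (π s) (f s)) (v n) = w n) ∧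
      (∀ s j x y, p = fib s (mid j x) → q = fib s (mid (π s j) y) → y < f s j x) := by
  have main : ∀ s j, ∃ f : ℚ → ℚ, StrictMono f ∧
      (∀ n ∈ W, ∀ x y, v n = fib s (mid j x) → w n = fib s (mid (π s j) y) → f x = y) ∧
      (∀ x y, p = fib s (mid j x) → q = fib s (mid (π s j) y) → y < f x) := by
    intro s j
    let S : Finset (ℚ × ℚ) := (W.filter fun n => ∃ x y, v n = fib s (mid j x) ∧
      w n = fib s (mid (π s j) y)).image fun n => (getx (v n), getx (w n))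
    have hS : ∀ a ∈ S, ∃ n ∈ W, v n = fib s (mid j a.1) ∧ w n = fib s (mid (π s j) a.2) := by
      intro a ha
      obtain ⟨n, hn, rfl⟩ := Finset.mem_image.1 ha
      obtain ⟨hn, x, y, hx, hy⟩ := Finset.mem_filter.1 hn
      exact ⟨n, hn, by rw [hx]; rfl, by rw [hy]; rfl⟩
    have hS' : ∀ n ∈ W, ∀ x y, v n = fib s (mid j x) → w n = fib s (mid (π s j) y) →
        (x, y) ∈ S := by
      intro n hn x y hx hy
      exact Finset.mem_image.2 ⟨n, Finset.mem_filter.2 ⟨hn, x, y, hx, hy⟩, by rw [hx, hy]; rfl⟩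
    have h : ∀ a ∈ S, ∀ b ∈ S, (a.1 ≤ b.1 ↔ a.2 ≤ b.2) := by
      intro a ha b hb
      obtain ⟨m, hm, hm1, hm2⟩ := hS a ha
      obtain ⟨n, hn, hn1, hn2⟩ := hS b hb
      have := hord m hm n hn
      rw [hm1, hm2, hn1, hn2] at this
      simpa using this
    by_cases hc : ∃ x y, p = fib s (mid j x) ∧ q = fib s (mid (π s j) y)
    · obtain ⟨x, y, hx, hy⟩ := hc
      obtain ⟨f, hf, hfS, hfx⟩ := exists_strictMono_gt S h x y (by
        intro a ha hxa
        obtain ⟨n, hn, hn1, hn2⟩ := hS a ha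
        refine lt_of_not_ge fun h5 => hpq n hn ⟨?_, ?_⟩
        · rw [hx, hn1]; simpa using hxa
        · rw [hy, hn2]; simpa using h5)
      refine ⟨f, hf, fun n hn x' y' hx' hy' => hfS (x', y') (hS' n hn x' y' hx' hy'), ?_⟩
      intro x' y' hx' hy'
      rw [hx] at hx'
      rw [hy] at hy'
      simp only [fib.injEq, mid.injEq, true_and] at hx' hy'
      rw [← hx', ← hy']
      exact hfx
    · obtain ⟨f, hf, hfS⟩ := exists_strictMono S h
      refine ⟨f, hf, fun n hn x' y' hx' hy' => hfS (x', y') (hS' n hn x' y' hx' hy'), ?_⟩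
      intro x' y' hx' hy'
      exact absurd ⟨x', y', hx', hy'⟩ hc
  choose f hf1 hf2 hf3 using main
  refine ⟨f, hf1, fun n hn => ?_, hf3⟩
  rcases hsh n hn with ⟨h1, h2⟩ | ⟨s, j, x, y, h1, h2⟩
  · rw [← h1]
    rcases hv : v n with _ | _ | _ | ⟨s, x⟩
    · rfl
    · rfl
    · rfl
    · rcases x with _ | _ | ⟨j, x⟩
      · rfl
      · rfl
      · exact absurd hv (h2 s j x)
  · rw [h1, h2]
    simp only [fmap, hmap, fib.injEq, mid.injEq, true_and]
    exact hf2 s j n hn x y h1 h2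

end Pool.Agent.R605.CIP
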