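import Pool.Agent.R605.CIP.Main

/-!
# Craig interpolation for the logic of `D (HS k)`: end of the proof
-/

set_option autoImplicit false

namespace Pool.Agent.R605.CIP

open D HS

variable {k : ℕ}

theorem key (α β : Fm) (h : ∀ u : ℕ → D (HS k), eval u α ≤ eval u β) (v w : ℕ → D (HS k)) :
    ∃ d : Fm, Fm.vars d ⊆ Fm.vars α ∩ Fm.vars β ∧ eval v α ≤ eval v d ∧
      eval w d ≤ eval w β := by
  by_contra hcon
  push Not at hcon
  have hno : ∀ a b, RR (Fm.vars α ∩ Fm.vars β) v w a b → eval v α ≤ a → ¬ b ≤ eval w β := by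
    rintro a b ⟨c, hc, rfl, rfl⟩ h1
    exact hcon c hc h1
  -- separation of sides
  have s1 : ∀ s t, fib s ⊥ ≤ eval v α → ¬ fib t ⊥ ≤ eval w β →
      ∃ a b, RR (Fm.vars α ∩ Fm.vars β) v w a b ∧ fib s ⊥ ≤ a ∧ ¬ fib t ⊥ ≤ b := by
    intro s t hs ht
    by_contra hc
    push Not at hc
    have h1 := comb α β h v w (chi s) (chi t) (isEnd_chi s) (isEnd_chi t) (by
      intro n hn
      have h2 := RR.var (v := v) (w := w) hn
      by_cases h3 : fib s ⊥ ≤ v n
      · rw [chi_of_le h3, chi_of_le (hc _ _ h2 h3)]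
      · have h4 : ¬ fib t ⊥ ≤ w n := fun h4 =>
          not_neg_supp h4 (hc _ _ (h2.res RR.zero) (neg_supp h3))
        rw [chi_of_not_le h3, chi_of_not_le h4])
    rw [chi_of_le hs, chi_of_not_le ht] at h1
    exact not_one_le_zero h1
  have s2 : ∀ s t, ∃ a b, RR (Fm.vars α ∩ Fm.vars β) v w a b ∧
      (fib s ⊥ ≤ eval v α → fib s ⊥ ≤ a) ∧ (fib t ⊥ ≤ b → fib t ⊥ ≤ eval w β) := by
    intro s t
    by_cases hs : fib s ⊥ ≤ eval v α
    · by_cases ht : fib t ⊥ ≤ eval w β
      · exact ⟨_, _, RR.one, by simp, fun _ => ht⟩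
      · obtain ⟨a, b, h1, h2, h3⟩ := s1 s t hs ht
        exact ⟨a, b, h1, fun _ => h2, fun h4 => absurd h4 h3⟩
    · exact ⟨_, _, RR.zero, fun h4 => absurd h4 hs, by simp⟩
  have s3 : ∀ s, ∃ a b, RR (Fm.vars α ∩ Fm.vars β) v w a b ∧
      (fib s ⊥ ≤ eval v α → fib s ⊥ ≤ a) ∧ ∀ t, (fib t ⊥ ≤ b → fib t ⊥ ≤ eval w β) := by
    intro s
    obtain ⟨a, b, h1, h2, h3⟩ := s2 s true
    obtain ⟨a', b', h1', h2', h3'⟩ := s2 s false
    refine ⟨_, _, h1.inf h1', fun h4 => le_inf (h2 h4) (h2' h4), fun t ht => ?_⟩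
    cases t
    · exact h3' (ht.trans inf_le_right)
    · exact h3 (ht.trans inf_le_left)
  have s4 : ∃ a b, RR (Fm.vars α ∩ Fm.vars β) v w a b ∧
      (∀ s, fib s ⊥ ≤ eval v α → fib s ⊥ ≤ a) ∧ ∀ t, (fib t ⊥ ≤ b → fib t ⊥ ≤ eval w β) := by
    obtain ⟨a, b, h1, h2, h3⟩ := s3 true
    obtain ⟨a', b', h1', h2', h3'⟩ := s3 false
    refine ⟨_, _, h1.sup h1', fun s hs => ?_, fun t ht => ?_⟩
    · cases s
      · exact (h2' hs).trans le_sup_right
      · exact (h2 hs).trans le_sup_left
    · rcases jp ht with h4 | h4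
      · exact h3 t h4
      · exact h3' t h4
  -- nothing of the form `(1, b)` with `b ≠ 1`
  have t2 : ∀ b, RR (Fm.vars α ∩ Fm.vars β) v w D.one b → b = D.one := by
    intro b hb
    by_contra hne
    obtain ⟨a', b', h1, h2, h3⟩ := s4
    have h4 := h1.nn.mul hb
    refine hno _ _ h4 ?_ ?_
    · rw [mul_one']
      exact L1 h2
    · exact (mul_mono' le_rfl (le_cc hne)).trans (L2 h3)
  have q1 : eval w β ≠ D.one := fun h1 =>
    hno _ _ RR.one (by simp) (by rw [h1])
  have p0 : eval v α ≠ D.zero := fun h1 =>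
    hno _ _ RR.zero (by rw [h1]) (by simp)
  -- some second coordinate is not classical
  have t3 : ∃ a b, RR (Fm.vars α ∩ Fm.vars β) v w a b ∧ b ≠ D.zero ∧ b ≠ D.one := by
    by_contra hc
    push Not at hc
    have u1 : ∀ s, ∃ a, RR (Fm.vars α ∩ Fm.vars β) v w a D.zero ∧
        (fib s ⊥ ≤ eval v α → fib s ⊥ ≤ a) := by
      intro s
      by_cases hs : fib s ⊥ ≤ eval v α
      · by_contra hc'
        push Not at hc'
        have h1 := comb α β h v w (chi s) (fun a => a) (isEnd_chi s) isEnd_id (by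
          intro n hn
          have h2 := RR.var (v := v) (w := w) hn
          by_cases h3 : w n = D.zero
          · rw [h3]
            rw [h3] at h2
            exact chi_of_not_le (hc' _ h2).2
          · have h4 := hc _ _ h2 h3
            rw [h4]
            rw [h4] at h2
            refine chi_of_le ?_
            by_contra h5
            have h6 := h2.res RR.zero
            rw [res_one_left] at h6
            exact (hc' _ h6).2 (neg_supp h5))
        rw [chi_of_le hs] at h1
        exact q1 (le_antisymm (by simp) h1)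
      · exact ⟨_, RR.zero, fun h4 => absurd h4 hs⟩
    obtain ⟨a, ha, ha'⟩ := u1 true
    obtain ⟨a', hb, hb'⟩ := u1 false
    have h1 := (ha.sup hb).nn
    refine hno _ _ h1 (L1 ?_) (by simp)
    intro s hs
    cases s
    · exact (hb' hs).trans le_sup_right
    · exact (ha' hs).trans le_sup_left
  have tcc : RR (Fm.vars α ∩ Fm.vars β) v w cc cc := by
    obtain ⟨a, b, h1, h2, h3⟩ := t3
    have h4 := h1.sup (h1.res RR.zero)
    rw [sup_neg_of_ne h2 h3] at h4
    rcases sup_neg a with h5 | h5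
    · rwa [h5] at h4
    · rw [h5] at h4
      exact absurd (t2 _ h4) (by simp)
  have t5 : ∀ a, RR (Fm.vars α ∩ Fm.vars β) v w a D.one → a = D.one := by
    intro a ha
    by_contra hne
    have h1 := ha.res tcc
    have h2 : FLA.res a cc = D.one := res_eq_one.2 (le_cc hne)
    rw [h2, res_one_left] at h1
    exact absurd (t2 _ h1) (by simp)
  have iso : ∀ a b a' b', RR (Fm.vars α ∩ Fm.vars β) v w a b →
      RR (Fm.vars α ∩ Fm.vars β) v w a' b' → (a ≤ a' ↔ b ≤ b') := by
    intro a b a' b' h1 h2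
    have h3 := h1.res h2
    constructor
    · intro h4
      have h5 : FLA.res a a' = D.one := res_eq_one.2 h4
      rw [h5] at h3
      exact res_eq_one.1 (t2 _ h3)
    · intro h4
      have h5 : FLA.res b b' = D.one := res_eq_one.2 h4
      rw [h5] at h3
      exact res_eq_one.1 (t5 _ h3)
  by_cases hfib : ∃ n ∈ Fm.vars α ∩ Fm.vars β, ∃ t y, w n = fib t y
  · obtain ⟨n, hn, t, y, hy⟩ := hfib
    have hv : ∃ s x, v n = fib s x := by
      have h1 := RR.var (v := v) (w := w) hn
      rcases hvn : v n with _ | _ | _ | ⟨s, x⟩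
      · have := (iso _ _ _ _ h1 RR.zero).1 (by rw [hvn])
        rw [hy] at this
        exact absurd this (by simp)
      · have := (iso _ _ _ _ RR.one h1).1 (by rw [hvn])
        rw [hy] at this
        exact absurd this (by simp)
      · have := (iso _ _ _ _ tcc h1).1 (by rw [hvn])
        rw [hy] at this
        exact absurd this (by simp)
      · exact ⟨s, x, rfl⟩
    obtain ⟨s, x, hx⟩ := hv
    by_cases hst : s = t
    · subst hst
      exact aligned α β h v w hno iso s x y n hn hx hy
    · have hst' : (!t) = s := by cases s <;> cases t <;> simp_all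
      have hev : ∀ c : Fm, eval (fun n => swp (w n)) c = swp (eval w c) := fun c =>
        isEnd_swp.eval w c
      have htr : ∀ a b, RR (Fm.vars α ∩ Fm.vars β) v (fun n => swp (w n)) a b →
          RR (Fm.vars α ∩ Fm.vars β) v w a (swp b) := by
        rintro a b ⟨c, hc, rfl, rfl⟩
        exact ⟨c, hc, rfl, by rw [hev, swp_swp]⟩
      refine aligned α β h v (fun n => swp (w n)) ?_ ?_ s x y n hn hx ?_
      · intro a b hab h1 h2
        refine hno _ _ (htr _ _ hab) h1 ?_
        rw [hev] at h2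
        rw [← swp_le_swp, swp_swp]
        exact h2
      · intro a b a' b' h1 h2
        rw [iso _ _ _ _ (htr _ _ h1) (htr _ _ h2)]
        exact swp_le_swp
      · simp only [hy, swp, hst']
  · push Not at hfib
    have hvw : ∀ n ∈ Fm.vars α ∩ Fm.vars β, v n = w n := by
      intro n hn
      have h1 := RR.var (v := v) (w := w) hn
      have h2 : RR (Fm.vars α ∩ Fm.vars β) v w (w n) (w n) := by
        rcases hw : w n with _ | _ | _ | ⟨t, y⟩
        · exact RR.zero
        · exact RR.one
        · exact tcc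
        · exact absurd hw (hfib n hn t y)
      exact le_antisymm ((iso _ _ _ _ h1 h2).2 le_rfl) ((iso _ _ _ _ h2 h1).2 le_rfl)
    have c1 := comb α β h v w (fun a => a) (fun a => a) isEnd_id isEnd_id hvw
    have c2 := comb α β h v w swp (fun a => a) isEnd_swp isEnd_id (by
      intro n hn
      rw [hvw n hn]
      rcases hw : w n with _ | _ | _ | ⟨t, y⟩
      · rfl
      · rfl
      · rfl
      · exact absurd hw (hfib n hn t y))
    rcases L3 c1 c2 with h1 | h1 | ⟨h1, h2⟩
    · exact p0 h1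
    · exact q1 h1
    · exact hno _ _ tcc h1 h2

/-- The logic of `D (HS k)` has the Craig interpolation property. -/
theorem hasCIP (k : ℕ) : HasCIP (Log (D (HS k))) := by
  intro α β h
  obtain ⟨d, h1, h2, h3⟩ := glue (k := k) α β (key α β (mem_log_imp.1 h))
  exact ⟨d, mem_log_imp.2 h1, mem_log_imp.2 h2, h3⟩

end Pool.Agent.R605.CIP
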