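import Pool.Agent.R605.CIP.Pat

/-!
# Craig interpolation for the logic of `D (HS k)`
-/

set_option autoImplicit false

namespace Pool.Agent.R605.CIP

open D HS

variable {k : ℕ}

/-- The pairs of values of formulas in the variables from `Z`. -/
def RR (Z : Finset ℕ) (v w : ℕ → D (HS k)) (a b : D (HS k)) : Prop :=
  ∃ c : Fm, Fm.vars c ⊆ Z ∧ eval v c = a ∧ eval w c = b

section RR

variable {Z : Finset ℕ} {v w : ℕ → D (HS k)} {a b a' b' : D (HS k)}

theorem RR.zero : RR Z v w D.zero D.zero := ⟨Fm.fbot, by simp [Fm.vars], rfl, rfl⟩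

theorem RR.one : RR Z v w D.one D.one := ⟨Fm.fone, by simp [Fm.vars], rfl, rfl⟩

theorem RR.var {n : ℕ} (hn : n ∈ Z) : RR Z v w (v n) (w n) :=
  ⟨Fm.var n, by simpa [Fm.vars] using hn, rfl, rfl⟩

theorem RR.sup (h : RR Z v w a b) (h' : RR Z v w a' b') : RR Z v w (a ⊔ a') (b ⊔ b') := by
  obtain ⟨c, hc, rfl, rfl⟩ := h
  obtain ⟨c', hc', rfl, rfl⟩ := h'
  exact ⟨Fm.disj c c', Finset.union_subset hc hc', rfl, rfl⟩

theorem RR.inf (h : RR Z v w a b) (h' : RR Z v w a' b') : RR Z v w (a ⊓ a') (b ⊓ b') := by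
  obtain ⟨c, hc, rfl, rfl⟩ := h
  obtain ⟨c', hc', rfl, rfl⟩ := h'
  exact ⟨Fm.conj c c', Finset.union_subset hc hc', rfl, rfl⟩

theorem RR.mul (h : RR Z v w a b) (h' : RR Z v w a' b') : RR Z v w (a * a') (b * b') := by
  obtain ⟨c, hc, rfl, rfl⟩ := h
  obtain ⟨c', hc', rfl, rfl⟩ := h'
  exact ⟨Fm.fus c c', Finset.union_subset hc hc', rfl, rfl⟩

theorem RR.res (h : RR Z v w a b) (h' : RR Z v w a' b') :
    RR Z v w (FLA.res a a') (FLA.res b b') := by
  obtain ⟨c, hc, rfl, rfl⟩ := h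
  obtain ⟨c', hc', rfl, rfl⟩ := h'
  exact ⟨Fm.imp c c', Finset.union_subset hc hc', rfl, rfl⟩

theorem RR.nn (h : RR Z v w a b) : RR Z v w (nn a) (nn b) := (h.res RR.zero).res RR.zero

end RR

/-- Gluing two valuations. -/
theorem comb (α β : Fm) (h : ∀ u : ℕ → D (HS k), eval u α ≤ eval u β) (v w : ℕ → D (HS k))
    (F G : D (HS k) → D (HS k)) (hF : IsEnd F) (hG : IsEnd G)
    (hFG : ∀ n ∈ Fm.vars α ∩ Fm.vars β, F (v n) = G (w n)) :
    F (eval v α) ≤ G (eval w β) := by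
  have h1 := h fun n => if n ∈ Fm.vars α then F (v n) else G (w n)
  rw [← hF.eval, ← hG.eval]
  have h2 : eval (fun n => if n ∈ Fm.vars α then F (v n) else G (w n)) α =
      eval (fun n => F (v n)) α := eval_congr fun n hn => by simp [hn]
  have h3 : eval (fun n => if n ∈ Fm.vars α then F (v n) else G (w n)) β =
      eval (fun n => G (w n)) β := eval_congr fun n hn => by
    by_cases hn' : n ∈ Fm.vars α
    · simp [hn', hFG n (Finset.mem_inter.2 ⟨hn', hn⟩)]
    · simp [hn']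
  rwa [h2, h3] at h1

/-- Elements which are not in one of the chains. -/
def Core (a : D (HS k)) : Prop := ∀ s j x, a ≠ fib s (mid j x)

theorem exists_perm (P : Finset (Fin k × Fin k))
    (hP : ∀ a ∈ P, ∀ b ∈ P, (a.1 = b.1 ↔ a.2 = b.2)) :
    ∃ π : Fin k → Fin k, Function.Injective π ∧ ∀ a ∈ P, π a.1 = a.2 := by
  classical
  let f : Fin k → Fin k := fun j => if h : ∃ i, (j, i) ∈ P then h.choose else j
  have hf : ∀ a ∈ P, f a.1 = a.2 := by
    intro a ha
    have h : ∃ i, (a.1, i) ∈ P := ⟨a.2, ha⟩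
    have h1 : f a.1 = h.choose := dif_pos h
    rw [h1]
    exact (hP _ h.choose_spec a ha).1 rfl
  obtain ⟨g, hg⟩ := Finset.exists_equiv_extend_of_card_eq (α := Fin k) (β := Fin k)
    (t := Finset.univ) (by simp) (s := P.image Prod.fst) (f := f) (Finset.subset_univ _) (by
      intro x hx y hy hxy
      simp only [Finset.coe_image, Set.mem_image, Finset.mem_coe] at hx hy
      obtain ⟨a, ha, rfl⟩ := hx
      obtain ⟨b, hb, rfl⟩ := hy
      rw [hf a ha, hf b hb] at hxy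
      exact (hP a ha b hb).2 hxy)
  refine ⟨fun j => (g j : Fin k), fun x y hxy => g.injective (Subtype.ext hxy), fun a ha => ?_⟩
  rw [← hf a ha]
  exact hg _ (Finset.mem_image_of_mem _ ha)

open Classical in
theorem aligned (α β : Fm) (h : ∀ u : ℕ → D (HS k), eval u α ≤ eval u β) (v w : ℕ → D (HS k))
    (hno : ∀ a b, RR (Fm.vars α ∩ Fm.vars β) v w a b → eval v α ≤ a → ¬ b ≤ eval w β)
    (iso : ∀ a b a' b', RR (Fm.vars α ∩ Fm.vars β) v w a b →
      RR (Fm.vars α ∩ Fm.vars β) v w a' b' → (a ≤ a' ↔ b ≤ b'))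
    (σ : Bool) (x y : HS k) (n₀ : ℕ) (hn₀ : n₀ ∈ Fm.vars α ∩ Fm.vars β) (hx : v n₀ = fib σ x)
    (hy : w n₀ = fib σ y) : False := by
  have h0 := RR.var (v := v) (w := w) hn₀
  rw [hx, hy] at h0
  have hb : RR (Fm.vars α ∩ Fm.vars β) v w (fib σ ⊥) (fib σ ⊥) := by simpa using h0.mul h0
  have ht : RR (Fm.vars α ∩ Fm.vars β) v w (fib σ ⊤) (fib σ ⊤) := by simpa using h0.nn
  have ht' : RR (Fm.vars α ∩ Fm.vars β) v w (fib (!σ) ⊤) (fib (!σ) ⊤) := by
    simpa using h0.res RR.zero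
  have hb' : RR (Fm.vars α ∩ Fm.vars β) v w (fib (!σ) ⊥) (fib (!σ) ⊥) := by
    simpa using ht'.mul ht'
  have hcc : RR (Fm.vars α ∩ Fm.vars β) v w cc cc := by
    have := ht.sup ht'
    simpa using this
  have hbs : ∀ s, RR (Fm.vars α ∩ Fm.vars β) v w (fib s ⊥) (fib s ⊥) := by
    intro s
    by_cases hs : s = σ
    · rw [hs]; exact hb
    · have : s = !σ := by cases s <;> cases σ <;> simp_all
      rw [this]; exact hb'
  have hts : ∀ s, RR (Fm.vars α ∩ Fm.vars β) v w (fib s ⊤) (fib s ⊤) := by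
    intro s
    by_cases hs : s = σ
    · rw [hs]; exact ht
    · have : s = !σ := by cases s <;> cases σ <;> simp_all
      rw [this]; exact ht'
  have hcore : ∀ a, Core a → RR (Fm.vars α ∩ Fm.vars β) v w a a := by
    intro a ha
    rcases a with _ | _ | _ | ⟨s, _ | _ | ⟨j, z⟩⟩
    · exact RR.zero
    · exact RR.one
    · exact hcc
    · exact hbs s
    · exact hts s
    · exact absurd rfl (ha s j z)
  have hvc : ∀ n ∈ Fm.vars α ∩ Fm.vars β, Core (v n) → w n = v n := by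
    intro n hn hc
    have h1 := hcore _ hc
    have h2 := RR.var (v := v) (w := w) hn
    exact le_antisymm ((iso _ _ _ _ h2 h1).1 le_rfl) ((iso _ _ _ _ h1 h2).1 le_rfl)
  have hwc : ∀ n ∈ Fm.vars α ∩ Fm.vars β, Core (w n) → w n = v n := by
    intro n hn hc
    have h1 := hcore _ hc
    have h2 := RR.var (v := v) (w := w) hn
    exact le_antisymm ((iso _ _ _ _ h1 h2).2 le_rfl) ((iso _ _ _ _ h2 h1).2 le_rfl)
  have hmid : ∀ n ∈ Fm.vars α ∩ Fm.vars β, ∀ s j x, v n = fib s (mid j x) →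
      ∃ i y, w n = fib s (mid i y) := by
    intro n hn s j x hx
    have h1 : ¬ Core (w n) := by
      intro hc
      rw [hwc n hn hc, hx] at hc
      exact hc s j x rfl
    unfold Core at h1
    push Not at h1
    obtain ⟨t, i, y, hy⟩ := h1
    have h2 := (iso _ _ _ _ (RR.var (v := v) (w := w) hn) (hts s))
    rw [hx, hy] at h2
    simp only [fib_le_fib, le_top, and_true, true_iff] at h2
    exact ⟨i, y, by rw [hy, h2]⟩
  have hpiece : ∀ m ∈ Fm.vars α ∩ Fm.vars β, ∀ n ∈ Fm.vars α ∩ Fm.vars β,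
      ∀ s j x j' x' i y i' y', v m = fib s (mid j x) → w m = fib s (mid j' x') →
      v n = fib s (mid i y) → w n = fib s (mid i' y') → (j = i ↔ j' = i') := by
    intro m hm n hn s j x j' x' i y i' y' h1 h2 h3 h4
    have h5 := iso _ _ _ _ (RR.var (v := v) (w := w) hm) (RR.var (v := v) (w := w) hn)
    have h6 := iso _ _ _ _ (RR.var (v := v) (w := w) hn) (RR.var (v := v) (w := w) hm)
    rw [h1, h2, h3, h4] at h5 h6
    simp only [fib_le_fib, mid_le_mid, true_and] at h5 h6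
    constructor
    · intro hji
      rcases le_total x y with hxy | hxy
      · exact (h5.1 ⟨hji, hxy⟩).1
      · exact (h6.1 ⟨hji.symm, hxy⟩).1.symm
    · intro hji
      rcases le_total x' y' with hxy | hxy
      · exact (h5.2 ⟨hji, hxy⟩).1
      · exact (h6.2 ⟨hji.symm, hxy⟩).1.symm
  have hπ : ∀ s, ∃ π : Fin k → Fin k, Function.Injective π ∧
      ∀ n ∈ Fm.vars α ∩ Fm.vars β, ∀ j x i y, v n = fib s (mid j x) → w n = fib s (mid i y) →
        π j = i := by
    intro s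
    obtain ⟨π, h1, h2⟩ := exists_perm (k := k) (Finset.univ.filter fun a : Fin k × Fin k =>
      ∃ n ∈ Fm.vars α ∩ Fm.vars β, ∃ x y, v n = fib s (mid a.1 x) ∧ w n = fib s (mid a.2 y)) (by
        intro a ha b hb
        rw [Finset.mem_filter] at ha hb
        obtain ⟨_, m, hm, x, x', h1, h2⟩ := ha
        obtain ⟨_, n, hn, y, y', h3, h4⟩ := hb
        exact hpiece m hm n hn s _ x _ x' _ y _ y' h1 h2 h3 h4)
    refine ⟨π, h1, fun n hn j x i y hv hw => ?_⟩
    exact h2 (j, i) (Finset.mem_filter.2 ⟨Finset.mem_univ _, n, hn, x, y, hv, hw⟩)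
  choose π hπ1 hπ2 using hπ
  obtain ⟨f, hf, hfW, hfx⟩ := exists_maps (Fm.vars α ∩ Fm.vars β) v w π (by
      intro n hn
      by_cases hc : Core (v n)
      · exact Or.inl ⟨(hvc n hn hc).symm, hc⟩
      · unfold Core at hc
        push Not at hc
        obtain ⟨s, j, x, hx⟩ := hc
        obtain ⟨i, y, hy⟩ := hmid n hn s j x hx
        have := hπ2 s n hn j x i y hx hy
        exact Or.inr ⟨s, j, x, y, hx, by rw [hy, this]⟩)
    (fun m hm n hn => iso _ _ _ _ (RR.var hm) (RR.var hn)) (eval v α) (eval w β)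
    (fun n hn hpq => hno _ _ (RR.var hn) hpq.1 hpq.2)
  have hE : ∀ s : Bool, D.IsEmb (hmap (π s) (f s)) := fun s =>
    isEmb_hmap (π s) (hπ1 s) (f s) (hf s)
  have hG := isEnd_fmap (fun s => hmap (π s) (f s)) hE
  have hpq := comb α β h v w _ _ hG isEnd_id hfW
  have hfix : ∀ a : D (HS k), Core a → fmap (fun s => hmap (π s) (f s)) a = a := by
    intro a ha
    rcases a with _ | _ | _ | ⟨s, _ | _ | ⟨j, z⟩⟩
    · rfl
    · rfl
    · rfl
    · rfl
    · rfl
    · exact absurd rfl (ha s j z)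
  by_cases hp : Core (eval v α)
  · rw [hfix _ hp] at hpq
    exact hno _ _ (hcore _ hp) le_rfl hpq
  · by_cases hq : Core (eval w β)
    · rw [← hfix _ hq, fmap_le_fmap _ hE] at hpq
      exact hno _ _ (hcore _ hq) hpq le_rfl
    · unfold Core at hp hq
      push Not at hp hq
      obtain ⟨s, j, x, hp⟩ := hp
      obtain ⟨t, i, y, hq⟩ := hq
      rw [hp, hq] at hpq
      simp only [fmap, hmap, fib_le_fib, mid_le_mid] at hpq
      obtain ⟨rfl, rfl, h3⟩ := hpq
      exact absurd (hfx s j x y hp hq) (not_lt_of_ge h3)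

end Pool.Agent.R605.CIP
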