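import Pool.Agent.R605.CIP.Ext

/-!
# Finitely many patterns, and gluing of interpolants
-/

set_option autoImplicit false

namespace Pool.Agent.R605.CIP

open D HS

variable {k : ℕ}

/-- Places. -/
abbrev Sh (k : ℕ) : Type := Fin 3 ⊕ (Bool × (Fin 2 ⊕ Fin k))

/-- The place of an element. -/
def shape : D (HS k) → Sh k
  | .zero => Sum.inl 0
  | .one => Sum.inl 1
  | .cc => Sum.inl 2
  | .fib s .bot => Sum.inr (s, Sum.inl 0)
  | .fib s .top => Sum.inr (s, Sum.inl 1)
  | .fib s (.mid j _) => Sum.inr (s, Sum.inr j)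

theorem rel_of_shape {a b : D (HS k)} (h : shape a = shape b) : Rel (fun _ => id) a b := by
  rcases a with _ | _ | _ | ⟨s, _ | _ | ⟨j, x⟩⟩ <;> rcases b with _ | _ | _ | ⟨t, _ | _ | ⟨i, y⟩⟩ <;>
    simp [shape] at h
  · exact Or.inl ⟨rfl, by simp⟩
  · exact Or.inl ⟨rfl, by simp⟩
  · exact Or.inl ⟨rfl, by simp⟩
  · subst h
    exact Or.inl ⟨rfl, by simp⟩
  · subst h
    exact Or.inl ⟨rfl, by simp⟩
  · obtain ⟨rfl, rfl⟩ := h
    exact Or.inr ⟨s, j, x, y, rfl, rfl⟩

/-- The pattern of a valuation on a finite set of variables. -/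
def pat (W : Finset ℕ) (v : ℕ → D (HS k)) : (W → Sh k) × (W → W → Prop) :=
  (fun n => shape (v n), fun m n => v m ≤ v n)

theorem le_iff_of_pat {W : Finset ℕ} {v w : ℕ → D (HS k)} (h : pat W v = pat W w) (a b : Fm)
    (ha : Fm.vars a ⊆ W) (hb : Fm.vars b ⊆ W) :
    eval v a ≤ eval v b ↔ eval w a ≤ eval w b := by
  have h1 : ∀ n ∈ W, shape (v n) = shape (w n) := fun n hn =>
    congrFun (congrArg Prod.fst h) ⟨n, hn⟩
  have h2 : ∀ m ∈ W, ∀ n ∈ W, (v m ≤ v n ↔ w m ≤ w n) := fun m hm n hn =>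
    iff_of_eq (congrFun (congrFun (congrArg Prod.snd h) ⟨m, hm⟩) ⟨n, hn⟩)
  obtain ⟨f, hf, hfW, _⟩ := exists_maps W v w (fun _ => id)
    (fun n hn => rel_of_shape (h1 n hn)) h2 D.one D.zero (by
      rintro n hn ⟨h3, h4⟩
      have h5 : v n = D.one := by
        revert h3
        rcases v n with _ | _ | _ | ⟨s, x⟩ <;> simp
      have h6 : w n = D.zero := by
        revert h4
        rcases w n with _ | _ | _ | ⟨s, x⟩ <;> simp
      have := h1 n hn
      rw [h5, h6] at this
      simp [shape] at this)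
  have hE : ∀ s : Bool, D.IsEmb (hmap (id : Fin k → Fin k) (f s)) := fun s =>
    isEmb_hmap id Function.injective_id (f s) (hf s)
  have hF : ∀ c : Fm, Fm.vars c ⊆ W →
      eval w c = fmap (fun s => hmap id (f s)) (eval v c) := by
    intro c hc
    rw [← (isEnd_fmap _ hE).eval]
    exact eval_congr fun n hn => (hfW n (hc hn)).symm
  rw [hF a ha, hF b hb]
  exact (fmap_le_fmap _ hE).symm

/-- Finitely many valuations represent all patterns. -/
theorem exists_reps (W : Finset ℕ) : ∃ l : List (ℕ → D (HS k)), ∀ v : ℕ → D (HS k),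
    ∃ w ∈ l, pat W v = pat W w := by
  classical
  have hfin : (Set.range (pat (k := k) W)).Finite := Set.toFinite _
  choose r hr using fun c : Set.range (pat (k := k) W) => c.2
  have hfin' : (Set.range r).Finite := by
    have := hfin.to_subtype
    exact Set.finite_range r
  refine ⟨hfin'.toFinset.toList, fun v => ⟨r ⟨pat W v, v, rfl⟩, ?_, ?_⟩⟩
  · simp
  · exact (hr ⟨pat W v, v, rfl⟩).symm

/-- Conjunction of a list. -/
def bigAnd : List Fm → Fm
  | [] => Fm.fone
  | a :: l => Fm.conj a (bigAnd l)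

/-- Disjunction of a list. -/
def bigOr : List Fm → Fm
  | [] => Fm.fbot
  | a :: l => Fm.disj a (bigOr l)

theorem le_bigAnd {A : Type} [FLA A] (v : ℕ → A) (x : A) (l : List Fm)
    (h : ∀ a ∈ l, x ≤ eval v a) : x ≤ eval v (bigAnd l) := by
  induction l with
  | nil => exact le_one' x
  | cons a l ih =>
    exact le_inf (h a (by simp)) (ih fun b hb => h b (by simp [hb]))

theorem bigAnd_le {A : Type} [FLA A] (v : ℕ → A) (l : List Fm) (a : Fm) (ha : a ∈ l) :
    eval v (bigAnd l) ≤ eval v a := by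
  induction l with
  | nil => simp at ha
  | cons b l ih =>
    rcases List.mem_cons.1 ha with rfl | h
    · exact inf_le_left
    · exact inf_le_right.trans (ih h)

theorem bigOr_le {A : Type} [FLA A] (v : ℕ → A) (x : A) (l : List Fm)
    (h : ∀ a ∈ l, eval v a ≤ x) : eval v (bigOr l) ≤ x := by
  induction l with
  | nil => exact bot_le
  | cons a l ih =>
    exact sup_le (h a (by simp)) (ih fun b hb => h b (by simp [hb]))

theorem le_bigOr {A : Type} [FLA A] (v : ℕ → A) (l : List Fm) (a : Fm) (ha : a ∈ l) :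
    eval v a ≤ eval v (bigOr l) := by
  induction l with
  | nil => simp at ha
  | cons b l ih =>
    rcases List.mem_cons.1 ha with rfl | h
    · exact le_sup_left
    · exact (ih h).trans le_sup_right

theorem vars_bigAnd (Z : Finset ℕ) (l : List Fm) (h : ∀ a ∈ l, Fm.vars a ⊆ Z) :
    Fm.vars (bigAnd l) ⊆ Z := by
  induction l with
  | nil => simp [bigAnd, Fm.vars]
  | cons a l ih =>
    exact Finset.union_subset (h a (by simp)) (ih fun b hb => h b (by simp [hb]))

theorem vars_bigOr (Z : Finset ℕ) (l : List Fm) (h : ∀ a ∈ l, Fm.vars a ⊆ Z) :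
    Fm.vars (bigOr l) ⊆ Z := by
  induction l with
  | nil => simp [bigOr, Fm.vars]
  | cons a l ih =>
    exact Finset.union_subset (h a (by simp)) (ih fun b hb => h b (by simp [hb]))

/-- If all pairs of valuations have local interpolants then there is an interpolant. -/
theorem glue (a b : Fm) (h : ∀ v w : ℕ → D (HS k), ∃ d : Fm,
      Fm.vars d ⊆ Fm.vars a ∩ Fm.vars b ∧ eval v a ≤ eval v d ∧ eval w d ≤ eval w b) :
    ∃ d : Fm, (∀ v : ℕ → D (HS k), eval v a ≤ eval v d) ∧
      (∀ v : ℕ → D (HS k), eval v d ≤ eval v b) ∧ Fm.vars d ⊆ Fm.vars a ∩ Fm.vars b := by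
  choose d hd1 hd2 hd3 using h
  obtain ⟨l, hl⟩ := exists_reps (k := k) (Fm.vars a ∪ Fm.vars b)
  have hZ : Fm.vars a ∩ Fm.vars b ⊆ Fm.vars a ∪ Fm.vars b :=
    Finset.inter_subset_left.trans Finset.subset_union_left
  have hv : Fm.vars (bigAnd (l.map fun w => bigOr (l.map fun v => d v w))) ⊆
      Fm.vars a ∩ Fm.vars b := by
    refine vars_bigAnd _ _ fun c hc => ?_
    obtain ⟨w, _, rfl⟩ := List.mem_map.1 hc
    refine vars_bigOr _ _ fun c hc => ?_
    obtain ⟨v, _, rfl⟩ := List.mem_map.1 hc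
    exact hd1 v w
  refine ⟨bigAnd (l.map fun w => bigOr (l.map fun v => d v w)), fun v => ?_, fun w => ?_, hv⟩
  · obtain ⟨v', hv', hp⟩ := hl v
    rw [le_iff_of_pat hp _ _ Finset.subset_union_left (hv.trans hZ)]
    refine le_bigAnd _ _ _ fun c hc => ?_
    obtain ⟨w, _, rfl⟩ := List.mem_map.1 hc
    exact (hd2 v' w).trans (le_bigOr _ _ _ (List.mem_map.2 ⟨v', hv', rfl⟩))
  · obtain ⟨w', hw', hp⟩ := hl w
    rw [le_iff_of_pat hp _ _ (hv.trans hZ) Finset.subset_union_right]
    refine (bigAnd_le _ _ _ (List.mem_map.2 ⟨w', hw', rfl⟩)).trans ?_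
    refine bigOr_le _ _ _ fun c hc => ?_
    obtain ⟨v, _, rfl⟩ := List.mem_map.1 hc
    exact hd3 v w'

end Pool.Agent.R605.CIP
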